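import Mathlib
import Pool.Agent.U307.RAD.Stm

/-!
# Project RAD, package PF: partial fractions
-/

set_option autoImplicit false

namespace Pool.Agent.U128.RAD.PF

open Pool.Agent.U307.RAD Finset Polynomial

/-- the nodes -/
noncomputable def v (l i : ℕ) : ℝ := -((l : ℝ) + 1 + i)

lemma prod_lt (i : ℕ) : ∏ h ∈ range i, ((h : ℝ) - i) = (-1) ^ i * (i.factorial : ℝ) := by
  have h1 : ∏ h ∈ range i, ((i : ℝ) - h) = (i.factorial : ℝ) := by
    rw [← Finset.prod_range_add_one_eq_factorial, ← Finset.prod_range_reflect, Nat.cast_prod]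
    refine prod_congr rfl fun h hh => ?_
    have := mem_range.1 hh
    rw [Nat.cast_add, Nat.cast_sub (by omega), Nat.cast_sub (by omega)]
    push_cast
    ring
  rw [← h1]
  have h2 : ((-1 : ℝ)) ^ i = ∏ _h ∈ range i, (-1 : ℝ) := by
    rw [prod_const, card_range]
  rw [h2, ← prod_mul_distrib]
  refine prod_congr rfl fun h _ => ?_
  ring

lemma prod_erase' (i m : ℕ) : ∏ h ∈ (range (i + 1 + m)).erase i, ((h : ℝ) - i) =
    (-1) ^ i * ((i.factorial : ℝ) * (m.factorial : ℝ)) := by
  induction m with
  | zero =>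
    rw [add_zero, range_add_one, erase_insert notMem_range_self, prod_lt]
    simp
  | succ m ih =>
    have h1 : i + 1 + (m + 1) = (i + 1 + m) + 1 := by ring
    rw [h1, range_add_one, erase_insert_of_ne (by omega), prod_insert (by simp), ih,
      Nat.factorial_succ]
    push_cast
    ring

lemma prod_erase {i n : ℕ} (h : i < n) : ∏ h ∈ (range n).erase i, ((h : ℝ) - i) =
    (-1) ^ i * ((i.factorial : ℝ) * ((n - 1 - i).factorial : ℝ)) := by
  have h1 : n = i + 1 + (n - 1 - i) := by omega
  have h2 := prod_erase' i (n - 1 - i)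
  rwa [← h1] at h2

/-- the first product -/
noncomputable def P (n l : ℕ) : ℝ[X] := ∏ i ∈ range n, (X - C (v l i))

/-- the second product -/
noncomputable def N (n : ℕ) : ℝ[X] := ∏ i ∈ range n, (X - C (i : ℝ))

lemma degree_lt {n : ℕ} (l : ℕ) (_hn : 1 ≤ n) : (P n l - N n).degree < (#(range n) : ℕ) := by
  have h1 : (P n l).Monic := monic_prod_of_monic _ _ fun i _ => monic_X_sub_C _
  have h2 : (N n).Monic := monic_prod_of_monic _ _ fun i _ => monic_X_sub_C _
  have h3 : (P n l).natDegree = n := by
    unfold P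
    rw [natDegree_finsetProd_X_sub_C_eq_card, card_range]
  have h4 : (N n).natDegree = n := by
    unfold N
    rw [natDegree_finsetProd_X_sub_C_eq_card, card_range]
  have h5 : (P n l).degree = (N n).degree := by
    rw [degree_eq_natDegree h1.ne_zero, degree_eq_natDegree h2.ne_zero, h3, h4]
  have h6 := degree_sub_lt_left h5 h1.ne_zero (by rw [h1.leadingCoeff, h2.leadingCoeff])
  rw [degree_eq_natDegree h1.ne_zero, h3] at h6
  rwa [card_range]

lemma v_inj (l : ℕ) : Function.Injective (v l) := by
  intro a b h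
  unfold v at h
  have : (a : ℝ) = b := by linarith
  exact_mod_cast this

lemma eval_node {n i : ℕ} (l : ℕ) (hi : i ∈ range n) :
    (P n l - N n).eval (v l i) = -(-1) ^ n * ∏ h ∈ range n, ((l : ℝ) + 1 + i + h) := by
  rw [eval_sub]
  have h1 : (P n l).eval (v l i) = 0 := by
    unfold P
    rw [eval_prod]
    exact prod_eq_zero hi (by simp)
  have h2 : (N n).eval (v l i) = (-1) ^ n * ∏ h ∈ range n, ((l : ℝ) + 1 + i + h) := by
    unfold N
    have h3 : ((-1 : ℝ)) ^ n = ∏ _h ∈ range n, (-1 : ℝ) := by
      rw [prod_const, card_range]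
    rw [eval_prod, h3, ← prod_mul_distrib]
    refine prod_congr rfl fun h _ => ?_
    rw [eval_sub, eval_X, eval_C, v]
    ring
  rw [h1, h2]
  ring

lemma key {n : ℕ} (l : ℕ) (hn : 1 ≤ n) : P n l - N n =
    ∑ i ∈ range n, C (Cc n l i) * ∏ h ∈ (range n).erase i, (X - C (v l h)) := by
  have h1 := Lagrange.eq_interpolate_of_eval_eq
    (r := fun i => -(-1) ^ n * ∏ h ∈ range n, ((l : ℝ) + 1 + i + h)) (s := range n) (v := v l)
    (v_inj l).injOn (degree_lt l hn) (fun i hi => eval_node l hi)
  rw [h1, Lagrange.interpolate_apply]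
  refine sum_congr rfl fun i hi => ?_
  have hi' := mem_range.1 hi
  unfold Lagrange.basis Lagrange.basisDivisor
  rw [prod_mul_distrib, ← mul_assoc]
  congr 1
  rw [← map_prod C, ← C_mul]
  congr 1
  rw [prod_inv_distrib]
  have h2 : ∏ h ∈ (range n).erase i, (v l i - v l h) =
      (-1) ^ i * ((i.factorial : ℝ) * ((n - 1 - i).factorial : ℝ)) := by
    rw [← prod_erase hi']
    refine prod_congr rfl fun h _ => ?_
    unfold v
    ring
  rw [h2]
  unfold Cc
  have h3 : -(-1 : ℝ) ^ n = (-1) ^ i * (-1) ^ (n - 1 - i) := by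
    have h4 : n = (i + (n - 1 - i)) + 1 := by omega
    conv_lhs => rw [h4, pow_succ, pow_add]
    ring
  have h5 : ((-1 : ℝ) ^ i) ≠ 0 := pow_ne_zero _ (by norm_num)
  have h6 : (i.factorial : ℝ) ≠ 0 := by positivity
  have h7 : ((n - 1 - i).factorial : ℝ) ≠ 0 := by positivity
  rw [h3]
  field_simp

/-- **package PF** -/
theorem t_PF : S_PF := by
  intro n l hn
  constructor
  · intro j
    have h1 := congrArg (fun q : ℝ[X] => q.eval (j : ℝ)) (key l hn)
    simp only [eval_sub, eval_finsetSum, eval_mul, eval_C, eval_prod, eval_X] at h1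
    have hP : (P n l).eval (j : ℝ) = ∏ i ∈ range n, ((j : ℝ) + l + 1 + i) := by
      unfold P
      rw [eval_prod]
      refine prod_congr rfl fun i _ => ?_
      rw [eval_sub, eval_X, eval_C, v]
      ring
    have hN : (N n).eval (j : ℝ) = ∏ i ∈ range n, ((j : ℝ) - i) := by
      unfold N
      rw [eval_prod]
      refine prod_congr rfl fun i _ => ?_
      rw [eval_sub, eval_X, eval_C]
    have hpos : ∏ i ∈ range n, ((j : ℝ) + l + 1 + i) ≠ 0 :=
      prod_ne_zero_iff.2 fun i _ => by positivity
    unfold Mm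
    rw [prod_div_distrib, eq_sub_iff_add_eq]
    rw [hP, hN] at h1
    have h2 : ∑ i ∈ range n, Cc n l i / ((l : ℝ) + 1 + i + j) =
        (∑ i ∈ range n, Cc n l i * ∏ h ∈ (range n).erase i, ((j : ℝ) - v l h)) /
          ∏ i ∈ range n, ((j : ℝ) + l + 1 + i) := by
      rw [sum_div]
      refine sum_congr rfl fun i hi => ?_
      have h3 : ∏ i ∈ range n, ((j : ℝ) + l + 1 + i) =
          ((l : ℝ) + 1 + i + j) * ∏ h ∈ (range n).erase i, ((j : ℝ) - v l h) := by
        rw [← mul_prod_erase _ _ hi]
        congr 1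
        · ring
        · refine prod_congr rfl fun h _ => ?_
          unfold v
          ring
      have h4 : ∏ h ∈ (range n).erase i, ((j : ℝ) - v l h) ≠ 0 := by
        refine prod_ne_zero_iff.2 fun h _ => ?_
        have : (j : ℝ) - v l h = j + l + 1 + h := by unfold v; ring
        rw [this]
        positivity
      have h5 : ((l : ℝ) + 1 + i + j) ≠ 0 := by positivity
      rw [h3]
      field_simp
    rw [h2, ← h1, ← add_div, sub_add_cancel, div_self hpos]
  · have h1 := congrArg (fun q : ℝ[X] => q.coeff (n - 1)) (key l hn)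
    simp only [coeff_sub, finsetSum_coeff, coeff_C_mul] at h1
    have hP : (P n l).coeff (n - 1) = -∑ i ∈ range n, v l i := by
      have := prod_X_sub_C_coeff_card_pred (range n) (fun i => v l i) (by rw [card_range]; omega)
      rwa [card_range] at this
    have hN : (N n).coeff (n - 1) = -∑ i ∈ range n, (i : ℝ) := by
      have := prod_X_sub_C_coeff_card_pred (range n) (fun i => (i : ℝ)) (by rw [card_range]; omega)
      rwa [card_range] at this
    have hE : ∀ i ∈ range n, (∏ h ∈ (range n).erase i, (X - C (v l h))).coeff (n - 1) = 1 := by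
      intro i hi
      have h2 : (∏ h ∈ (range n).erase i, (X - C (v l h))).Monic :=
        monic_prod_of_monic _ _ fun i _ => monic_X_sub_C _
      have h3 : (∏ h ∈ (range n).erase i, (X - C (v l h))).natDegree = n - 1 := by
        rw [natDegree_finsetProd_X_sub_C_eq_card, card_erase_of_mem hi, card_range]
      have h4 := h2.coeff_natDegree
      rwa [h3] at h4
    rw [hP, hN] at h1
    have h5 : ∑ i ∈ range n, Cc n l i =
        ∑ i ∈ range n, Cc n l i * (∏ h ∈ (range n).erase i, (X - C (v l h))).coeff (n - 1) :=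
      sum_congr rfl fun i hi => by rw [hE i hi, mul_one]
    rw [h5, ← h1]
    have h6 : ∀ m : ℕ, -∑ i ∈ range m, v l i - -∑ i ∈ range m, (i : ℝ) = (m : ℝ) * (m + l) := by
      intro m
      induction m with
      | zero => simp
      | succ m ih =>
        rw [sum_range_succ, sum_range_succ]
        have h7 : v l m = -((l : ℝ) + 1 + m) := rfl
        rw [h7]
        push_cast
        linarith
    exact h6 n

end Pool.Agent.U128.RAD.PF
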